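import Pool.Agent.H82.PRP.Stmts

/-!
# CLO: the powers of the augmentation ideal of the completed group algebra are closed
-/

set_option autoImplicit false

namespace Pool.Agent.H82.PRP.CLO

open Filter Topology CategoryTheory

variable {p : ℕ} {G : Type} [Group G] [TopologicalSpace G]

theorem transMap_of {U V : OpenNormalSubgroup G} (h : U.toSubgroup ≤ V.toSubgroup) (g : G) :
    transMap p h (MonoidAlgebra.of (ZMod p) _ (g : G ⧸ U.toSubgroup)) =
      MonoidAlgebra.of (ZMod p) _ (g : G ⧸ V.toSubgroup) := by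
  unfold transMap
  simp [MonoidAlgebra.mapDomainAlgHom]

theorem transMap_self (U : OpenNormalSubgroup G) (x : MonoidAlgebra (ZMod p) (G ⧸ U.toSubgroup)) :
    transMap p (le_refl U.toSubgroup) x = x := by
  unfold transMap
  have : QuotientGroup.map U.toSubgroup U.toSubgroup (MonoidHom.id G) (le_refl _) =
      MonoidHom.id _ := by
    ext x
    rfl
  rw [this, MonoidAlgebra.mapDomainAlgHom_id]
  rfl

theorem transMap_comp {U V W : OpenNormalSubgroup G} (h : U.toSubgroup ≤ V.toSubgroup)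
    (h' : V.toSubgroup ≤ W.toSubgroup) (x : MonoidAlgebra (ZMod p) (G ⧸ U.toSubgroup)) :
    transMap p h' (transMap p h x) = transMap p (h.trans h') x := by
  unfold transMap
  rw [← AlgHom.comp_apply, ← MonoidAlgebra.mapDomainAlgHom_comp]
  congr 2
  ext x
  rfl

/-- The element of the completed group algebra of `g`. -/
noncomputable def el (p : ℕ) (g : G) : CGA p G :=
  ⟨fun U => MonoidAlgebra.of (ZMod p) _ (g : G ⧸ U.toSubgroup), fun _ _ h => transMap_of h g⟩

theorem le_iff {U V : OpenNormalSubgroup G} (h : U ≤ V) : U.toSubgroup ≤ V.toSubgroup := h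

/-- The finite sets of coefficients. -/
def FS (p : ℕ) (k n : ℕ) (s : Fin k → G) (f : CGA p G) (U : OpenNormalSubgroup G) : Type :=
  {c : Fin k → MonoidAlgebra (ZMod p) (G ⧸ U.toSubgroup) //
    (∀ j, c j ∈ (augI p (G ⧸ U.toSubgroup)) ^ n) ∧
    f.1 U = ∑ j, c j * (MonoidAlgebra.of (ZMod p) _ (s j : G ⧸ U.toSubgroup) - 1)}

/-- The transition maps. -/
noncomputable def FSmap (hAUGB : AUGBStmt) [Fact p.Prime] (k n : ℕ) (s : Fin k → G) (f : CGA p G)
    {U V : OpenNormalSubgroup G} (h : U.toSubgroup ≤ V.toSubgroup) (c : FS p k n s f U) :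
    FS p k n s f V :=
  ⟨fun j => transMap p h (c.1 j), fun j =>
    (hAUGB p (G ⧸ U.toSubgroup)).2.2.2.2 _
      (QuotientGroup.map U.toSubgroup V.toSubgroup (MonoidHom.id G) h) n _ (c.2.1 j), by
    refine (f.2 U V h).symm.trans ((congrArg (transMap p h) c.2.2).trans ?_)
    rw [map_sum]
    refine Finset.sum_congr rfl fun j _ => ?_
    rw [map_mul, map_sub, map_one, transMap_of]⟩

/-- The inverse system. -/
noncomputable def FSfun (hAUGB : AUGBStmt) [Fact p.Prime] (k n : ℕ) (s : Fin k → G) (f : CGA p G) :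
    OpenNormalSubgroup G ⥤ Type where
  obj U := FS p k n s f U
  map {U V} h := TypeCat.ofHom (FSmap hAUGB k n s f (le_iff h.le))
  map_id U := by
    ext c
    exact Subtype.ext (funext fun j => transMap_self U (c.1 j))
  map_comp {U V W} h h' := by
    ext c
    exact Subtype.ext (funext fun j => (transMap_comp (le_iff h.le) (le_iff h'.le) (c.1 j)).symm)

theorem closure_quot (k : ℕ) (s : Fin k → G)
    (hs : ∀ U : Set G, IsOpen U → U.Nonempty →
      (U ∩ (Subgroup.closure (Set.range s) : Set G)).Nonempty)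
    (hm : ∀ g : G, Continuous fun x : G => g * x) (U : OpenNormalSubgroup G) :
    Subgroup.closure (Set.range fun j => (s j : G ⧸ U.toSubgroup)) = ⊤ := by
  rw [eq_top_iff]
  rintro x -
  obtain ⟨g, rfl⟩ := QuotientGroup.mk_surjective x
  obtain ⟨y, hy1, hy2⟩ := hs ((fun x => g⁻¹ * x) ⁻¹' (U.toSubgroup : Set G))
    (U.isOpen'.preimage (hm g⁻¹)) ⟨g, by simp⟩
  have h1 : (g : G ⧸ U.toSubgroup) = (y : G ⧸ U.toSubgroup) := QuotientGroup.eq.2 hy1
  rw [h1]
  have h2 : (Subgroup.closure (Set.range s)).map (QuotientGroup.mk' U.toSubgroup) =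
      Subgroup.closure (Set.range fun j => (s j : G ⧸ U.toSubgroup)) := by
    rw [MonoidHom.map_closure]
    congr 1
    ext z
    simp
  rw [← h2]
  exact ⟨y, hy2, rfl⟩

theorem step (hAUGB : AUGBStmt) (hGENL : GENLStmt) [Fact p.Prime] [IsTopologicalGroup G]
    [CompactSpace G] (k n : ℕ) (hn : 1 ≤ n) (s : Fin k → G)
    (hs : ∀ U : Set G, IsOpen U → U.Nonempty →
      (U ∩ (Subgroup.closure (Set.range s) : Set G)).Nonempty) (f : CGA p G)
    (hf : ∀ U : OpenNormalSubgroup G, f.1 U ∈ (augI p (G ⧸ U.toSubgroup)) ^ (n + 1)) :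
    ∃ c : Fin k → CGA p G,
      (∀ (j : Fin k) (U : OpenNormalSubgroup G), (c j).1 U ∈ (augI p (G ⧸ U.toSubgroup)) ^ n) ∧
      f = ∑ j, c j * (el p (s j) - 1) := by
  classical
  have hfin : ∀ U : OpenNormalSubgroup G, Finite ((FSfun hAUGB k n s f).obj U) := by
    intro U
    have : Finite (G ⧸ U.toSubgroup) := Subgroup.quotient_finite_of_isOpen U.toSubgroup U.isOpen'
    have : Finite (MonoidAlgebra (ZMod p) (G ⧸ U.toSubgroup)) :=
      Finite.of_injective (fun x => (x.coeff : (G ⧸ U.toSubgroup) → ZMod p))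
        (fun x y h => MonoidAlgebra.coeff_injective (DFunLike.coe_injective h))
    exact Subtype.finite
  have hne : ∀ U : OpenNormalSubgroup G, Nonempty ((FSfun hAUGB k n s f).obj U) := by
    intro U
    obtain ⟨c, hc, he⟩ := (hGENL p (G ⧸ U.toSubgroup) k (fun j => (s j : G ⧸ U.toSubgroup))
      (closure_quot k s hs (fun g => continuous_const_mul g) U)).2 n hn (f.1 U) (hf U)
    exact ⟨⟨c, hc, he⟩⟩
  obtain ⟨c, hc⟩ := nonempty_sections_of_finite_cofiltered_system (FSfun hAUGB k n s f)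
  refine ⟨fun j => ⟨fun U => (c U).1 j, ?_⟩, fun j U => (c U).2.1 j, ?_⟩
  · intro U V h
    have := hc (homOfLE (show U ≤ V from h))
    exact congrFun (congrArg Subtype.val this) j
  · refine Subtype.ext (funext fun U => ?_)
    rw [(c U).2.2]
    simp only [AddSubmonoidClass.coe_finsetSum, Finset.sum_apply]
    rfl

end Pool.Agent.H82.PRP.CLO

namespace Pool.Agent.H82.PRP

open CLO

theorem clo_thm (hAUGB : AUGBStmt) (hGENL : GENLStmt) : CLOStmt := by
  intro p _ G _ _ _ _ k hG n hn
  obtain ⟨s, hs⟩ := hG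
  induction n, hn using Nat.le_induction with
  | base =>
    intro f hf
    rw [pow_one]
    intro U
    have := hf U
    rw [pow_one] at this
    exact this
  | succ n hn ih =>
    intro f hf
    obtain ⟨c, hc, he⟩ := step hAUGB hGENL k n hn s hs f hf
    rw [he, pow_succ]
    refine Submodule.sum_mem _ fun j _ => Submodule.mul_mem_mul (ih (c j) (hc j)) ?_
    intro U
    exact (hAUGB p (G ⧸ U.toSubgroup)).1 (s j : G ⧸ U.toSubgroup)

end Pool.Agent.H82.PRP
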